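import Pool.Agent.N874.PM.Stm
import Pool.Agent.N704.PP.Loc

/-!
# Local analysis over `M` at the primes not dividing `D`

Project PM (helper874), part LOC1M.
-/

set_option autoImplicit false
set_option linter.all false

open Polynomial IsDedekindDomain WithZero
open Pool.Agent.N874.PP Pool.Agent.N874.PM Pool.Agent.N704.PP
open scoped Classical

namespace Pool.Agent.N75.PM

section gen

variable {M Ω R O : Type} [Field M] [Field Ω] [Algebra M Ω] [CommRing R]
  [IsDedekindDomain R] [Algebra R M] [IsFractionRing R M] [CommRing O] [IsDedekindDomain O]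
  [Algebra O Ω] [IsFractionRing O Ω] {w : HeightOneSpectrum R} {𝔓 : HeightOneSpectrum O}

/-- The map of the completions. -/
theorem cmap (hl : Lies (M := M) (Ω := Ω) w 𝔓) :
    ∃ j : w.adicCompletion M →+* 𝔓.adicCompletion Ω,
    (∀ x : M, j (algebraMap M (w.adicCompletion M) x) =
      algebraMap Ω (𝔓.adicCompletion Ω) (algebraMap M Ω x)) ∧
    (∀ y, Valued.v y ≤ 1 → Valued.v (j y) ≤ 1) ∧ (∀ y, Valued.v y < 1 → Valued.v (j y) < 1) :=
  Pool.Agent.TH115.GD.exists_compl_map w 𝔓 (algebraMap M Ω) hl.le hl.lt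

theorem eval_dvd (j : w.adicCompletion M →+* 𝔓.adicCompletion Ω)
    (hj : ∀ x : M, j (algebraMap M (w.adicCompletion M) x) =
      algebraMap Ω (𝔓.adicCompletion Ω) (algebraMap M Ω x)) {A B : M} {Θ : Ω}
    (hΘ : Θ ^ 3 + algebraMap M Ω A * Θ + algebraMap M Ω B = 0)
    {p : (w.adicCompletion M)[X]}
    (hp : X ^ 3 + C (algebraMap M (w.adicCompletion M) A) * X +
      C (algebraMap M (w.adicCompletion M) B) ∣ p) :
    p.eval₂ j (algebraMap Ω (𝔓.adicCompletion Ω) Θ) = 0 := by
  obtain ⟨q, rfl⟩ := hp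
  rw [eval₂_mul]
  have e : eval₂ j (algebraMap Ω (𝔓.adicCompletion Ω) Θ)
      (X ^ 3 + C (algebraMap M (w.adicCompletion M) A) * X +
      C (algebraMap M (w.adicCompletion M) B)) = 0 := by
    simp only [eval₂_add, eval₂_mul, eval₂_pow, eval₂_X, eval₂_C]
    rw [hj, hj, ← map_pow, ← map_mul, ← map_add, ← map_add, hΘ, map_zero]
  rw [e, zero_mul]

theorem eval_h (j : w.adicCompletion M →+* 𝔓.adicCompletion Ω)
    (hj : ∀ x : M, j (algebraMap M (w.adicCompletion M) x) =
      algebraMap Ω (𝔓.adicCompletion Ω) (algebraMap M Ω x)) (Θ : Ω) (h : M[X]) :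
    (h.map (algebraMap M (w.adicCompletion M))).eval₂ j (algebraMap Ω (𝔓.adicCompletion Ω) Θ) =
      algebraMap Ω (𝔓.adicCompletion Ω) (aeval Θ h) := by
  rw [eval₂_map]
  have e : j.comp (algebraMap M (w.adicCompletion M)) =
      (algebraMap Ω (𝔓.adicCompletion Ω)).comp (algebraMap M Ω) := by
    exact RingHom.ext fun x => hj x
  rw [e, ← Polynomial.hom_eval₂]
  rfl

/-- The two cases of `PLoc` over the completion of `Ω`. -/
theorem loc_cases (j : w.adicCompletion M →+* 𝔓.adicCompletion Ω)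
    (hj : ∀ x : M, j (algebraMap M (w.adicCompletion M) x) =
      algebraMap Ω (𝔓.adicCompletion Ω) (algebraMap M Ω x)) {A B : M} {Θ : Ω}
    (hΘ : Θ ^ 3 + algebraMap M Ω A * Θ + algebraMap M Ω B = 0) {h : M[X]}
    (hl : PLoc (w.adicCompletion M) A B h) :
    (∃ g : 𝔓.adicCompletion Ω, algebraMap Ω (𝔓.adicCompletion Ω) (aeval Θ h) = g ^ 2) ∨
    ∃ x y : w.adicCompletion M, y ≠ 0 ∧
    y ^ 2 = x ^ 3 + algebraMap M (w.adicCompletion M) A * x +
      algebraMap M (w.adicCompletion M) B ∧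
    ∃ g : 𝔓.adicCompletion Ω, (j x - algebraMap Ω (𝔓.adicCompletion Ω) Θ) *
        algebraMap Ω (𝔓.adicCompletion Ω) (aeval Θ h) = g ^ 2 := by
  rcases hl with ⟨g, hg⟩ | ⟨x, y, hy, hxy, g, hg⟩
  · left
    refine ⟨g.eval₂ j (algebraMap Ω (𝔓.adicCompletion Ω) Θ), ?_⟩
    have := eval_dvd j hj hΘ hg
    rw [eval₂_sub, eval₂_pow, eval_h j hj, sub_eq_zero] at this
    exact this
  · right
    refine ⟨x, y, hy, hxy, g.eval₂ j (algebraMap Ω (𝔓.adicCompletion Ω) Θ), ?_⟩
    have := eval_dvd j hj hΘ hg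
    rw [eval₂_sub, eval₂_pow, eval₂_mul, eval₂_sub, eval₂_C, eval₂_X, eval_h j hj,
      sub_eq_zero] at this
    exact this

theorem j_unit (j : w.adicCompletion M →+* 𝔓.adicCompletion Ω)
    (hj : ∀ y, Valued.v y ≤ 1 → Valued.v (j y) ≤ 1) {y : w.adicCompletion M}
    (hy : Valued.v y = 1) : Valued.v (j y) = 1 := by
  refine le_antisymm (hj y hy.le) ?_
  have h0 : y ≠ 0 := by
    rintro rfl
    rw [map_zero] at hy
    exact zero_ne_one hy
  have h1 : Valued.v (j y⁻¹) ≤ 1 := hj _ (by rw [map_inv₀, hy, inv_one])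
  have h2 : Valued.v (j y) * Valued.v (j y⁻¹) = 1 := by
    rw [← map_mul, ← map_mul, mul_inv_cancel₀ h0, map_one, map_one]
  calc 1 = Valued.v (j y) * Valued.v (j y⁻¹) := h2.symm
    _ ≤ Valued.v (j y) * 1 := mul_le_mul' le_rfl h1
    _ = Valued.v (j y) := mul_one _

theorem j_big (j : w.adicCompletion M →+* 𝔓.adicCompletion Ω)
    (hj : ∀ y, Valued.v y < 1 → Valued.v (j y) < 1) {y : w.adicCompletion M}
    (hy : 1 < Valued.v y) : 1 < Valued.v (j y) := by
  have h0 : y ≠ 0 := by
    rintro rfl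
    rw [map_zero] at hy
    exact absurd hy (by simp)
  have h1 : Valued.v (j y⁻¹) < 1 := hj _ (by
    rw [map_inv₀]
    exact inv_lt_one_of_one_lt₀ hy)
  rw [map_inv₀, map_inv₀] at h1
  have h2 : Valued.v (j y) ≠ 0 := by
    rw [Valuation.ne_zero_iff, Ne, map_eq_zero]; exact h0
  exact (inv_lt_one₀ (zero_lt_iff.2 h2)).1 h1

theorem j_lt (j : w.adicCompletion M →+* 𝔓.adicCompletion Ω)
    (hj1 : ∀ y, Valued.v y ≤ 1 → Valued.v (j y) ≤ 1)
    (hj : ∀ y, Valued.v y < 1 → Valued.v (j y) < 1) {y : w.adicCompletion M}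
    (hy : Valued.v (j y) < 1) : Valued.v y < 1 := by
  by_contra h
  rcases (not_lt.1 h).eq_or_lt with h1 | h1
  · rw [j_unit j hj1 h1.symm] at hy
    exact lt_irrefl _ hy
  · exact lt_asymm hy (j_big j hj h1)

end gen

section val

variable {F : Type} [Field F] (V : Valuation F (WithZero (Multiplicative ℤ)))

theorem vnat (n : ℕ) : V (n : F) ≤ 1 := by
  induction n with
  | zero => simp
  | succ n ih =>
    rw [Nat.cast_succ]
    exact (Valuation.map_add _ _ _).trans (max_le ih (by rw [map_one]))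

theorem root_le {a b x : F} (ha : V a ≤ 1) (hb : V b ≤ 1) (h : x ^ 3 + a * x + b = 0) :
    V x ≤ 1 := by
  by_contra hx
  rw [not_le] at hx
  have h2 : V (a * x + b) ≤ V x := by
    refine (Valuation.map_add _ _ _).trans (max_le ?_ (hb.trans hx.le))
    rw [map_mul]
    calc _ ≤ 1 * V x := mul_le_mul' ha le_rfl
      _ = _ := one_mul _
  have h3 : V (x ^ 3) = V (a * x + b) := by
    have : x ^ 3 = -(a * x + b) := by linear_combination h
    rw [this, Valuation.map_neg]
  rw [← h3, map_pow] at h2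
  have h4 : V x ^ 1 < V x ^ 3 := pow_lt_pow_right₀ hx (by norm_num)
  rw [pow_one] at h4
  exact absurd h2 (not_le.2 h4)

theorem bigV {x y A B : F} (hA : V A ≤ 1) (hB : V B ≤ 1)
    (hxy : y ^ 2 = x ^ 3 + A * x + B) (hx : 1 < V x) : V y ^ 2 = V x ^ 3 := by
  have h1 : V (A * x + B) < V (x ^ 3) := by
    have h2 : V (A * x + B) ≤ V x := by
      refine (Valuation.map_add _ _ _).trans (max_le ?_ (hB.trans hx.le))
      rw [map_mul]
      calc _ ≤ 1 * V x := mul_le_mul' hA le_rfl
        _ = _ := one_mul _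
    refine lt_of_le_of_lt h2 ?_
    rw [map_pow]
    calc V x = V x ^ 1 := (pow_one _).symm
      _ < V x ^ 3 := pow_lt_pow_right₀ hx (by norm_num)
  have h3 := congrArg V hxy
  rw [add_assoc, map_pow, Valuation.map_add_eq_of_lt_left _ h1, map_pow] at h3
  exact h3

theorem lt_one_iff_le (z : WithZero (Multiplicative ℤ)) : z < 1 ↔ z ≤ exp (-1 : ℤ) := by
  rcases eq_or_ne z 0 with rfl | hz
  · simp
  · obtain ⟨n, rfl⟩ : ∃ n : ℤ, z = exp n := ⟨log z, (exp_log hz).symm⟩
    rw [← exp_zero, exp_lt_exp, exp_le_exp]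
    omega

/-- The discriminant: if `f` and its derivative are small at `x` then `f` has valuation one. -/
theorem disc_val {x A f f' B : F} (hx : V x ≤ 1) (hf : V f < 1) (hf' : V f' < 1)
    (e1 : f = x ^ 3 + A * x + B) (e2 : f' = 3 * x ^ 2 + A)
    (hd : exp (-1 : ℤ) ≤ V (4 * A ^ 3 + 27 * B ^ 2)) : V f = exp (-1 : ℤ) := by
  have hid : 4 * A ^ 3 + 27 * B ^ 2 = (4 * f' ^ 3 - 9 * x ^ 2 * f' ^ 2 + 27 * f ^ 2 -
      54 * x * f * f') + 108 * x ^ 3 * f := by
    rw [e1, e2]
    ring
  rw [lt_one_iff_le] at hf hf'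
  have n4 : V (4 : F) ≤ 1 := by exact_mod_cast vnat V 4
  have n9 : V (9 : F) ≤ 1 := by exact_mod_cast vnat V 9
  have n27 : V (27 : F) ≤ 1 := by exact_mod_cast vnat V 27
  have n54 : V (54 : F) ≤ 1 := by exact_mod_cast vnat V 54
  have n108 : V (108 : F) ≤ 1 := by exact_mod_cast vnat V 108
  have e11 : exp (-1 : ℤ) * exp (-1 : ℤ) = (exp (-2 : ℤ) : WithZero (Multiplicative ℤ)) := by
    rw [← exp_add]
    norm_num
  have e1le : (exp (-1 : ℤ) : WithZero (Multiplicative ℤ)) ≤ 1 := by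
    rw [← exp_zero, exp_le_exp]
    norm_num
  have t1 : V (4 * f' ^ 3) ≤ exp (-2 : ℤ) := by
    rw [map_mul, map_pow, pow_succ, pow_two, ← e11]
    calc V 4 * (V f' * V f' * V f') ≤ 1 * (exp (-1 : ℤ) * exp (-1 : ℤ) * 1) :=
          mul_le_mul' n4 (mul_le_mul' (mul_le_mul' hf' hf') (hf'.trans e1le))
      _ = _ := by rw [one_mul, mul_one]
  have t2 : V (9 * x ^ 2 * f' ^ 2) ≤ exp (-2 : ℤ) := by
    rw [map_mul, map_mul, map_pow, map_pow, pow_two (V f'), ← e11]
    calc V 9 * V x ^ 2 * (V f' * V f') ≤ 1 * 1 * (exp (-1 : ℤ) * exp (-1 : ℤ)) :=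
          mul_le_mul' (mul_le_mul' n9 (pow_le_one' hx 2)) (mul_le_mul' hf' hf')
      _ = _ := by rw [one_mul, one_mul]
  have t3 : V (27 * f ^ 2) ≤ exp (-2 : ℤ) := by
    rw [map_mul, map_pow, pow_two (V f), ← e11]
    calc V 27 * (V f * V f) ≤ 1 * (exp (-1 : ℤ) * exp (-1 : ℤ)) :=
          mul_le_mul' n27 (mul_le_mul' hf hf)
      _ = _ := by rw [one_mul]
  have t4 : V (54 * x * f * f') ≤ exp (-2 : ℤ) := by
    rw [map_mul, map_mul, map_mul, ← e11]
    calc V 54 * V x * V f * V f' ≤ 1 * 1 * exp (-1 : ℤ) * exp (-1 : ℤ) :=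
          mul_le_mul' (mul_le_mul' (mul_le_mul' n54 hx) hf) hf'
      _ = _ := by rw [one_mul, one_mul]
  have t5 : V (4 * f' ^ 3 - 9 * x ^ 2 * f' ^ 2 + 27 * f ^ 2 - 54 * x * f * f') ≤
      exp (-2 : ℤ) := by
    refine (Valuation.map_sub _ _ _).trans (max_le ?_ t4)
    refine (Valuation.map_add _ _ _).trans (max_le ?_ t3)
    exact (Valuation.map_sub _ _ _).trans (max_le t1 t2)
  have t6 : exp (-1 : ℤ) ≤ V (108 * x ^ 3 * f) := by
    by_contra hc
    rw [not_le] at hc
    rw [hid] at hd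
    have t7 : (exp (-2 : ℤ) : WithZero (Multiplicative ℤ)) < exp (-1 : ℤ) := by
      rw [exp_lt_exp]
      norm_num
    exact absurd hd (not_le.2 (lt_of_le_of_lt (Valuation.map_add _ _ _)
      (max_lt (lt_of_le_of_lt t5 t7) hc)))
  refine le_antisymm hf (t6.trans ?_)
  rw [map_mul, map_mul, map_pow]
  calc V 108 * V x ^ 3 * V f ≤ 1 * 1 * V f :=
        mul_le_mul' (mul_le_mul' n108 (pow_le_one' hx 3)) le_rfl
    _ = _ := by rw [one_mul, one_mul]

theorem sq_ne (y : F) : V y ^ 2 ≠ exp (-1 : ℤ) := by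
  intro h
  have hy : V y ≠ 0 := by
    intro h0
    rw [h0, zero_pow two_ne_zero] at h
    exact exp_ne_zero h.symm
  obtain ⟨n, hn⟩ : ∃ n : ℤ, V y = exp n := ⟨log (V y), (exp_log hy).symm⟩
  rw [hn, pow_two, ← exp_add, exp_inj] at h
  omega

end val

theorem loc1m : S_LOC1M := by
  intro M Ω R O _ _ _ _ _ _ _ _ _ _ _ w 𝔓 hlies a b D θ h hθ h6 ha hb hD hd hl hne
  obtain ⟨j, hj1, hj2, hj3⟩ := cmap hlies
  have hDne : D ≠ 0 := by
    rintro rfl
    rw [map_zero] at hD
    exact zero_ne_one hD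
  have hΘ : (algebraMap M Ω D * θ) ^ 3 + algebraMap M Ω (a * D ^ 2) * (algebraMap M Ω D * θ) +
      algebraMap M Ω (b * D ^ 3) = 0 := by
    rw [map_mul, map_mul, map_pow, map_pow]
    linear_combination (algebraMap M Ω D) ^ 3 * hθ
  set Θ : Ω := algebraMap M Ω D * θ with hΘd
  set α : Ω := aeval Θ h with hα
  have hAv : w.valuation M (a * D ^ 2) ≤ 1 := by
    rw [map_mul, map_pow, hD, one_pow, mul_one]
    exact ha
  have hBv : w.valuation M (b * D ^ 3) ≤ 1 := by
    rw [map_mul, map_pow, hD, one_pow, mul_one]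
    exact hb
  have hθ1 : 𝔓.valuation Ω Θ ≤ 1 := root_le _ (hlies.le _ hAv) (hlies.le _ hBv) hΘ
  rcases loc_cases j hj1 hΘ hl with ⟨g, hg⟩ | ⟨x, y, hy, hxy, g, hg⟩
  · exact ev_of 𝔓 α g (by rw [← hα] at hg; rw [hg, map_pow])
  · rw [← hα] at hg
    set A := algebraMap M (w.adicCompletion M) (a * D ^ 2) with hA
    set B := algebraMap M (w.adicCompletion M) (b * D ^ 3) with hB
    set T := algebraMap Ω (𝔓.adicCompletion Ω) Θ with hT
    have hAv' : Valued.v A ≤ 1 := by rw [hA, vx]; exact hAv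
    have hBv' : Valued.v B ≤ 1 := by rw [hB, vx]; exact hBv
    have hTv : Valued.v T ≤ 1 := by rw [hT, vx]; exact hθ1
    have hTroot : T ^ 3 + j A * T + j B = 0 := by
      rw [hA, hB, hj1, hj1, hT, ← map_pow, ← map_mul, ← map_add, ← map_add, hΘ, map_zero]
    -- it suffices to find `s`
    have fin : ∀ s : 𝔓.adicCompletion Ω, s ≠ 0 → Valued.v (j x - T) = Valued.v s ^ 2 →
        Ev 𝔓 α := by
      intro s hs hsv
      have hs0 : Valued.v s ≠ 0 := (Valuation.ne_zero_iff _).2 hs
      refine ev_of 𝔓 α (g / s) ?_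
      have h6 := congrArg (Valued.v : 𝔓.adicCompletion Ω → WithZero (Multiplicative ℤ)) hg
      rw [map_mul, hsv, map_pow] at h6
      rw [map_div₀, div_pow, ← h6, mul_div_assoc, mul_comm, div_mul_cancel₀]
      exact pow_ne_zero 2 hs0
    by_cases hx : Valued.v x ≤ 1
    · have hu1 : Valued.v (j x - T) ≤ 1 :=
        (Valuation.map_sub _ _ _).trans (max_le (hj2 x hx) hTv)
      rcases hu1.eq_or_lt with hu | hu
      · exact fin 1 one_ne_zero (by rw [hu, map_one, one_pow])
      set u := j x - T with hud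
      have hf : j (y ^ 2) = u * (u ^ 2 + 3 * T * u + (3 * T ^ 2 + j A)) := by
        rw [hxy, map_add, map_add, map_mul, map_pow]
        have e1 : j x = T + u := by rw [hud]; ring
        rw [e1]
        linear_combination hTroot
      have n3 : Valued.v (3 : 𝔓.adicCompletion Ω) ≤ 1 := by
        exact_mod_cast vnat (Valued.v : Valuation (𝔓.adicCompletion Ω) _) 3
      have n6 : Valued.v (6 : 𝔓.adicCompletion Ω) ≤ 1 := by
        exact_mod_cast vnat (Valued.v : Valuation (𝔓.adicCompletion Ω) _) 6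
      have hs : Valued.v (u ^ 2 + 3 * T * u) < 1 := by
        refine lt_of_le_of_lt (Valuation.map_add _ _ _) (max_lt ?_ ?_)
        · rw [map_pow, pow_two]
          exact mul_lt_one_of_lt_of_le hu hu.le
        · rw [map_mul, map_mul, mul_comm]
          exact mul_lt_one_of_lt_of_le hu (mul_le_one' n3 hTv)
      have hdv : Valued.v (3 * T ^ 2 + j A) ≤ 1 := by
        refine (Valuation.map_add _ _ _).trans (max_le ?_ (hj2 A hAv'))
        rw [map_mul, map_pow]
        exact mul_le_one' n3 (pow_le_one' hTv 2)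
      have hjy : j y ≠ 0 := by
        rw [Ne, map_eq_zero]
        exact hy
      rcases hdv.eq_or_lt with hd1 | hd1
      · refine fin (j y) hjy ?_
        have h5 : Valued.v (u ^ 2 + 3 * T * u + (3 * T ^ 2 + j A)) = 1 := by
          rw [Valuation.map_add_eq_of_lt_right _ (by rw [hd1]; exact hs), hd1]
        have h6 := congrArg (Valued.v : 𝔓.adicCompletion Ω → WithZero (Multiplicative ℤ)) hf
        rw [map_mul, h5, mul_one, map_pow, map_pow] at h6
        exact h6.symm
      · exfalso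
        have hf1 : Valued.v (y ^ 2) < 1 := by
          refine j_lt j hj2 hj3 ?_
          rw [hf, map_mul]
          refine mul_lt_one_of_lt_of_le hu ?_
          exact (Valuation.map_add _ _ _).trans (max_le hs.le hdv)
        have hf2 : Valued.v (3 * x ^ 2 + A) < 1 := by
          refine j_lt j hj2 hj3 ?_
          have e1 : j (3 * x ^ 2 + A) = (3 * T ^ 2 + j A) + u * (6 * T + 3 * u) := by
            rw [map_add, map_mul, map_pow, map_ofNat]
            have e2 : j x = T + u := by rw [hud]; ring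
            rw [e2]
            ring
          rw [e1]
          refine lt_of_le_of_lt (Valuation.map_add _ _ _) (max_lt hd1 ?_)
          rw [map_mul]
          refine mul_lt_one_of_lt_of_le hu ?_
          refine (Valuation.map_add _ _ _).trans (max_le ?_ ?_)
          · rw [map_mul]
            exact mul_le_one' n6 hTv
          · rw [map_mul]
            exact mul_le_one' n3 hu.le
        have hdd : exp (-1 : ℤ) ≤ Valued.v (4 * A ^ 3 + 27 * B ^ 2) := by
          have e1 : 4 * A ^ 3 + 27 * B ^ 2 = algebraMap M (w.adicCompletion M)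
              ((4 * a ^ 3 + 27 * b ^ 2) * D ^ 6) := by
            rw [hA, hB]
            simp only [map_mul, map_add, map_pow, map_ofNat]
            ring
          rw [e1, vx, map_mul, map_pow, hD, one_pow, mul_one]
          exact hd
        have h7 := disc_val (Valued.v : Valuation (w.adicCompletion M) _) hx hf1 hf2 hxy rfl hdd
        rw [map_pow] at h7
        exact sq_ne (Valued.v : Valuation (w.adicCompletion M) _) y h7
    · rw [not_le] at hx
      have hv3 := bigV (Valued.v : Valuation (w.adicCompletion M) _) hAv' hBv' hxy hx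
      have hx0 : x ≠ 0 := by
        rintro rfl
        rw [map_zero] at hx
        exact absurd hx (by simp)
      have hvx0 : Valued.v x ≠ 0 := (Valuation.ne_zero_iff _).2 hx0
      have h3 : Valued.v (j (x ^ 3 / y ^ 2)) = 1 := j_unit j hj2 (by
        rw [map_div₀, map_pow, map_pow, hv3, div_self (pow_ne_zero 3 hvx0)])
      have hjx := j_big j hj3 hx
      have h5 : Valued.v (j x - T) = Valued.v (j x) :=
        Valuation.map_sub_eq_of_lt_left _ (lt_of_le_of_lt hTv hjx)
      have hjy0 : j y ≠ 0 := by rw [Ne, map_eq_zero]; exact hy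
      have hjx0 : j x ≠ 0 := by rw [Ne, map_eq_zero]; exact hx0
      refine fin (j y / j x) (div_ne_zero hjy0 hjx0) ?_
      have e7 : j x = (j y / j x) ^ 2 * j (x ^ 3 / y ^ 2) := by
        rw [map_div₀, map_pow, map_pow]
        field_simp
      have h7 := congrArg (Valued.v : 𝔓.adicCompletion Ω → WithZero (Multiplicative ℤ)) e7
      rw [map_mul, h3, mul_one, map_pow] at h7
      rw [h5]
      exact h7

end Pool.Agent.N75.PM
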